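import Pool.Agent.W221.NS.Stm4

set_option autoImplicit false

open MeasureTheory Set Metric
open scoped ContDiff ENNReal

namespace Pool.Agent.W496.MH

open H459R3.NS W221.NS

/-- the slices of a jointly smooth field are smooth -/
theorem slice_smooth {α β : ℝ} {v : ℝ → V → V}
    (h : ContDiffOn ℝ ∞ (fun z : ℝ × V => v z.1 z.2) (Ioo α β ×ˢ univ)) {t : ℝ}
    (ht : t ∈ Ioo α β) : ContDiff ℝ ∞ (v t) :=
  h.comp_contDiff (f := fun x : V => (t, x)) (contDiff_const.prodMk contDiff_id)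
    (fun _ => ⟨ht, mem_univ _⟩)

theorem t_LOCAL3 (hG : S_GREEN) (hH : S_HYP3) (hL : S_LOC2) (hD : S_DEC) : S_LOCAL3 := by
  obtain ⟨g, C, hC, hg⟩ := hG
  obtain ⟨C', hC', H⟩ := hH g C hg
  obtain ⟨ε, CL, hε, hCL, L⟩ := hL
  obtain ⟨D, hDpos, Dec⟩ := hD g C hg
  refine ⟨ε / C', CL + D, by positivity, by positivity, ?_⟩
  intro F v q hF hv hint hsmall t ht z hz i
  have h1 : C' * (F + ∫ t in Ioo (-1) 0, B2 0 8 (v t)) ≤ ε := by
    calc C' * (F + ∫ t in Ioo (-1) 0, B2 0 8 (v t)) ≤ C' * (ε / C') := by gcongr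
      _ = ε := by field_simp
  have h2 := L v _ _ (H F v q hF hv ε hint h1) t ht z hz i
  have ht' : t ∈ Ioo (-1 : ℝ) 0 := ⟨by linarith [ht.1], ht.2⟩
  have hz' : z ∈ ball (0 : V) 1 := ball_subset_ball (by norm_num) hz
  have h3 := ((Dec (v t) (slice_smooth hv.smooth_v ht') (hv.divfree t ht')).2.2.2 z hz' i).1
  have h4 : |v t z i| ≤ |v t z i - TT g (v t) z i| + |TT g (v t) z i| := by
    have := abs_add_le (v t z i - TT g (v t) z i) (TT g (v t) z i)
    simpa using this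
  have h5 : 0 ≤ √(A2 0 4 (v t)) := Real.sqrt_nonneg _
  calc |v t z i| ≤ |v t z i - TT g (v t) z i| + |TT g (v t) z i| := h4
    _ ≤ D * √(A2 0 4 (v t)) + CL := add_le_add h3 h2
    _ ≤ (CL + D) * (1 + √(A2 0 4 (v t))) := by nlinarith [mul_nonneg hCL.le h5]

end Pool.Agent.W496.MH
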